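import Pool.Agent.H27.LV.Basic

/-!
# MP_70ba79_ag, module INJ
-/

set_option autoImplicit false

namespace Pool.Agent.H27.LV

open MvPolynomial SC

theorem inj : T_INJ := by
  intro k K _ _ _ n d ι _ a φ D y hy c hc
  classical
  set g : MvPolynomial (Fin (n + 1)) K := ∑ q, C (c q) * mono K (insm 0 q) with hg
  let s : MvPolynomial (Fin (n + 1)) K →ₐ[K] MvPolynomial (Fin (n + 1)) K :=
    aeval (Fin.cons (- ∑ j, C (y j) * X j.succ) (fun j : Fin n => X j.succ))
  have hs0 : s (X 0) = - ∑ j, C (y j) * X j.succ := by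
    simp only [s, aeval_X, Fin.cons_zero]
  have hsj : ∀ j : Fin n, s (X j.succ) = X j.succ := by
    intro j
    simp only [s, aeval_X, Fin.cons_succ]
  have hsC : ∀ z : K, s (C z) = C z := by
    intro z
    exact s.commutes z
  have hL : s (lin (xx y)) = 0 := by
    unfold lin
    rw [Fin.sum_univ_succ, map_add, map_sum, map_mul, hs0]
    have h1 : ∀ j : Fin n, s (C (xx y j.succ) * X j.succ) = C (y j) * X j.succ := by
      intro j
      rw [map_mul, hsC, hsj]
      rfl
    simp only [h1]
    have h2 : xx y 0 = 1 := rfl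
    rw [h2, hsC, C_1, one_mul, neg_add_cancel]
  have hX : s (lin fun j => D (xx y j)) = ∑ j : Fin n, C (D (y j)) * X j.succ := by
    unfold lin
    rw [Fin.sum_univ_succ, map_add, map_sum, map_mul]
    have h2 : D (xx y 0) = 0 := D.map_one_eq_zero
    simp only [h2]
    rw [C_0, map_zero, zero_mul, zero_add]
    refine Finset.sum_congr rfl fun j _ => ?_
    rw [map_mul, hsC, hsj]
    rfl
  have hXne : (∑ j : Fin n, C (D (y j)) * X j.succ : MvPolynomial (Fin (n + 1)) K) ≠ 0 := by
    obtain ⟨j, hj⟩ := hy
    intro h0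
    have h1 := congrArg (coeff (Finsupp.single j.succ 1)) h0
    rw [coeff_sum, coeff_zero, Finset.sum_eq_single j] at h1
    · rw [coeff_C_mul, coeff_X] at h1
      simp at h1
      exact hj h1
    · intro i _ hij
      rw [coeff_C_mul, coeff_X, if_neg, mul_zero]
      intro h
      rw [Finsupp.single_left_inj one_ne_zero] at h
      exact hij (Fin.succ_injective _ h)
    · simp
  have hsm : ∀ q : Mon n (d + 1), s (mono K (insm 0 q)) = mono K (insm 0 q) := by
    intro q
    have h1 : mono K (insm 0 q) = ∏ j : Fin n, X j.succ ^ q.1 j := by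
      have h2 : mono K (insm (0 : Fin (n + 1)) q) = ∏ j : Fin (n + 1), X j ^ (insm 0 q j) := by
        unfold mono
        rw [monomial_eq, C_1, one_mul, Finsupp.prod_fintype]
        · rfl
        · intro i; rw [pow_zero]
      rw [h2, Fin.prod_univ_succ, insm_self, pow_zero, one_mul]
      refine Finset.prod_congr rfl fun j _ => ?_
      have := insm_succAbove (0 : Fin (n + 1)) q j
      rw [Fin.succAbove_zero] at this
      rw [this]
    rw [h1, map_prod]
    refine Finset.prod_congr rfl fun j _ => ?_
    rw [map_pow, hsj]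
  have hsg : s g = g := by
    rw [hg, map_sum]
    refine Finset.sum_congr rfl fun q _ => ?_
    rw [map_mul, hsC, hsm]
  have h0 : g * (∑ j : Fin n, C (D (y j)) * X j.succ) = 0 := by
    have h1 := congrArg s hc
    rw [uu, map_sub, map_mul, map_mul, hL, hsg, hX, zero_mul, sub_zero, map_zero] at h1
    exact h1
  have hg0 : g = 0 := (mul_eq_zero.mp h0).resolve_right hXne
  funext q
  have h1 := congrArg (coeff (fs (insm 0 q))) hg0
  rw [hg, coeff_sum, coeff_zero, Finset.sum_eq_single q] at h1
  · rw [coeff_C_mul, coeff_mono, if_pos rfl, mul_one] at h1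
    exact h1
  · intro p _ hp
    rw [coeff_C_mul, coeff_mono, if_neg, mul_zero]
    intro h
    exact hp (insm_injective 0 h)
  · simp

end Pool.Agent.H27.LV
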