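import Pool.Agent.H27.LV.Basic

/-!
# MP_70ba79_ag, modules MRK, MIN
-/

set_option autoImplicit false

namespace Pool.Agent.H27.LV

open MvPolynomial SC

theorem mrk : T_MRK := by
  intro F _ P Q _ _ _ M hM
  classical
  haveI : Fintype P := Fintype.ofFinite P
  have hinj : Function.Injective M.mulVecLin := by
    rw [← LinearMap.ker_eq_bot, LinearMap.ker_eq_bot']
    intro c hc
    exact hM c hc
  have hrank : M.rank = Fintype.card Q := by
    rw [Matrix.rank, LinearMap.finrank_range_of_inj hinj, Module.finrank_fintype_fun_eq_card]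
  have hspan : Submodule.span F (Set.range M.row) = ⊤ := by
    apply Submodule.eq_top_of_finrank_eq
    rw [← Matrix.rank_eq_finrank_span_row, hrank, Module.finrank_fintype_fun_eq_card]
  obtain ⟨b, hb, hbs, hli⟩ := exists_linearIndependent F (Set.range M.row)
  rw [hspan] at hbs
  have hbfin : b.Finite := (Set.finite_range M.row).subset hb
  haveI : Fintype b := hbfin.fintype
  let B : Module.Basis b F (Q → F) := Module.Basis.mk hli (by rw [Subtype.range_coe]; exact hbs.ge)
  have hcard : Fintype.card b = Fintype.card Q := by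
    rw [← Module.finrank_eq_card_basis B, Module.finrank_fintype_fun_eq_card]
  let e : Q ≃ b := Fintype.equivOfCardEq hcard.symm
  choose κ0 hκ0 using fun x : b => hb x.2
  refine ⟨fun q => κ0 (e q), ?_⟩
  have h1 : LinearIndependent F (M.submatrix (fun q => κ0 (e q)) id).row := by
    have h2 : (M.submatrix (fun q => κ0 (e q)) id).row = fun q => ((e q : b) : Q → F) := by
      funext q
      exact hκ0 (e q)
    rw [h2]
    exact hli.comp e e.injective
  have h3 := Matrix.linearIndependent_rows_iff_isUnit.mp h1
  exact ((Matrix.isUnit_iff_isUnit_det _).mp h3).ne_zero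

theorem min (hHOM : T_HOM) (hINJ : T_INJ) (hMRK : T_MRK) : T_MIN := by
  intro k K _ _ _ n d ι _ a φ D y hφ hy
  classical
  obtain ⟨hadd, hsmul, hhom⟩ := hHOM k K n d ι a φ D (xx y) hφ
  have hzero : uu D (xx y) a φ 0 = 0 := by
    have := hsmul 0 0
    simpa using this
  have hsum : ∀ (s : Finset (Mon n (d + 1))) (c : Mon n (d + 1) → K),
      uu D (xx y) a φ (∑ q ∈ s, C (c q) * mono K (insm 0 q)) =
        ∑ q ∈ s, C (c q) * uu D (xx y) a φ (mono K (insm 0 q)) := by
    intro s c
    induction s using Finset.induction_on with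
    | empty => simpa using hzero
    | insert q s hq ih => rw [Finset.sum_insert hq, Finset.sum_insert hq, hadd, hsmul, ih]
  obtain ⟨κ, hκ⟩ := hMRK K (Mon (n + 1) (d + 2)) (Mon n (d + 1))
    (Matrix.of fun p q => (uu D (xx y) a φ (mono K (insm 0 q))).coeff (fs p.1)) (by
      intro c hc
      apply hINJ k K n d ι a φ D y hy c
      rw [hsum]
      have hh : (∑ q, C (c q) * uu D (xx y) a φ (mono K (insm 0 q))).IsHomogeneous (d + 2) := by
        refine IsHomogeneous.sum _ _ _ fun q _ => ?_
        have h1 := hhom _ (isHomogeneous_mono_insm (K := K) (0 : Fin (n + 1)) q)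
        have h2 := (isHomogeneous_C (Fin (n + 1)) (c q)).mul h1
        rwa [zero_add] at h2
      rw [dec hh]
      refine Finset.sum_eq_zero fun p _ => ?_
      have h3 : (∑ q, C (c q) * uu D (xx y) a φ (mono K (insm 0 q))).coeff (fs p.1) = 0 := by
        have h4 := congrFun hc p
        simp only [Matrix.mulVec, dotProduct, Matrix.of_apply, Pi.zero_apply] at h4
        rw [coeff_sum, ← h4]
        refine Finset.sum_congr rfl fun q _ => ?_
        rw [coeff_C_mul, mul_comm]
      rw [h3, C_0, zero_mul])
  exact ⟨κ, hκ⟩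

end Pool.Agent.H27.LV
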