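import Pool.Agent.H27.LV.Basic

/-!
# MP_70ba79_ag, module SEL
-/

set_option autoImplicit false

namespace Pool.Agent.H27.LV

open MvPolynomial SC

theorem sel : T_SEL := by
  intro k _ n d J _ a ha0 hsep
  classical
  set M := Mon (n + 1) d with hM
  let r : Option J → (M → k) := fun i p => eval (a i) (mono k p.1)
  -- the form with given coefficients
  let F : (M → k) → MvPolynomial (Fin (n + 1)) k := fun c => ∑ p, C (c p) * mono k p.1
  have hFhom : ∀ c, (F c).IsHomogeneous d := by
    intro c
    refine IsHomogeneous.sum _ _ _ fun q _ => ?_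
    have h2 := (isHomogeneous_C (Fin (n + 1)) (c q)).mul (isHomogeneous_mono (K := k) q)
    rwa [zero_add] at h2
  have hFeval : ∀ c i, eval (a i) (F c) = ∑ p, c p * r i p := by
    intro c i
    simp only [F, r, map_sum, map_mul, eval_C]
  have hFcoeff : ∀ c (q : M), (F c).coeff (fs q.1) = c q := by
    intro c q
    simp only [F, coeff_sum, coeff_C_mul, coeff_mono]
    rw [Finset.sum_eq_single q]
    · simp
    · intro p _ hp
      rw [if_neg, mul_zero]
      intro h
      exact hp (Subtype.ext h)
    · simp
  -- rows span
  have hrnone : r none ≠ 0 := by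
    obtain ⟨j, hj⟩ : ∃ j, a none j ≠ 0 := by
      by_contra hcon
      push Not at hcon
      exact ha0 (funext hcon)
    have hjs : ∑ i, (fun i : Fin (n + 1) => if i = j then d else 0) i = d := by simp
    intro h0
    have h1 := congrFun h0 (⟨fun i => if i = j then d else 0, hjs⟩ : M)
    simp only [r, eval_mono, Pi.zero_apply] at h1
    rw [Finset.prod_eq_zero_iff] at h1
    obtain ⟨i, _, hi⟩ := h1
    by_cases hij : i = j
    · rw [hij, if_pos rfl] at hi
      exact hj (eq_zero_of_pow_eq_zero hi)
    · rw [if_neg hij, pow_zero] at hi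
      exact one_ne_zero hi
  have hli0 : LinearIndepOn k r {none} := by
    rw [linearIndepOn_singleton_iff]
    exact hrnone
  obtain ⟨b, hbt, hsb, hspan, hli⟩ := exists_linearIndepOn_extension hli0 (Set.subset_univ {none})
  have hbnone : none ∈ b := hsb rfl
  haveI : Fintype b := Set.Finite.fintype (Set.toFinite b)
  have horth : ∀ c : M → k, (∀ i ∈ b, ∑ p, c p * r i p = 0) → c = 0 := by
    intro c hc
    have h1 : ∀ i, ∑ p, c p * r i p = 0 := by
      intro i
      have h2 : r i ∈ Submodule.span k (r '' b) := hspan ⟨i, Set.mem_univ i, rfl⟩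
      let ψ : (M → k) →ₗ[k] k :=
        { toFun := fun z => ∑ p, c p * z p
          map_add' := by intro x y; simp only [Pi.add_apply, mul_add, Finset.sum_add_distrib]
          map_smul' := by
            intro t x
            simp only [Pi.smul_apply, smul_eq_mul, RingHom.id_apply, Finset.mul_sum]
            exact Finset.sum_congr rfl fun p _ => by ring }
      have h3 : Submodule.span k (r '' b) ≤ LinearMap.ker ψ := by
        rw [Submodule.span_le]
        rintro _ ⟨j, hj, rfl⟩
        exact hc j hj
      exact h3 h2
    have h2 : F c = 0 := hsep _ (hFhom c) fun i => by rw [hFeval, h1]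
    funext q
    rw [← hFcoeff c q, h2, coeff_zero, Pi.zero_apply]
  let s : Finset (Option J) := b.toFinset
  have hmem : ∀ i, i ∈ s ↔ i ∈ b := fun i => Set.mem_toFinset
  let T : (M → k) →ₗ[k] (s → k) :=
    { toFun := fun c i => ∑ p, c p * r i.1 p
      map_add' := by
        intro x y
        funext i
        simp only [Pi.add_apply, add_mul, Finset.sum_add_distrib]
      map_smul' := by
        intro t x
        funext i
        simp only [Pi.smul_apply, smul_eq_mul, RingHom.id_apply, Finset.mul_sum]
        exact Finset.sum_congr rfl fun p _ => by ring }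
  have hTinj : Function.Injective T := by
    rw [← LinearMap.ker_eq_bot, LinearMap.ker_eq_bot']
    intro c hc
    apply horth c
    intro i hi
    exact congrFun hc ⟨i, (hmem i).mpr hi⟩
  have hle1 : Fintype.card M ≤ s.card := by
    have := LinearMap.finrank_le_finrank_of_injective hTinj
    simpa using this
  have hle2 : s.card ≤ Fintype.card M := by
    have h1 : LinearIndependent k (fun i : b => r i.1) := hli
    have h2 := h1.fintype_card_le_finrank
    rw [Module.finrank_fintype_fun_eq_card] at h2
    rwa [Set.toFinset_card]
  have hcard : s.card = Fintype.card M := le_antisymm hle2 hle1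
  have hTsurj : Function.Surjective T := by
    have hfin : Module.finrank k (M → k) = Module.finrank k (s → k) := by
      simp [hcard]
    exact (LinearMap.injective_iff_surjective_of_finrank_eq_finrank hfin).mp hTinj
  choose c hc using fun i : s => hTsurj (Pi.single i 1)
  have hev : ∀ i j : s, eval (a j.1) (F (c i)) = (Pi.single i 1 : s → k) j := by
    intro i j
    rw [hFeval, ← hc i]
    rfl
  refine ⟨s, fun i => F (c i), (hmem _).mpr hbnone, hcard, ?_, ?_, ?_, ?_⟩
  · intro i
    exact hFhom _
  · intro i
    rw [hev, Pi.single_eq_same]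
  · intro i j hij
    rw [hev, Pi.single_eq_of_ne (Ne.symm hij)]
  · intro g hg
    have h1 : (g - ∑ i : s, C (eval (a i.1) g) * F (c i)).IsHomogeneous d := by
      refine hg.sub (IsHomogeneous.sum _ _ _ fun q _ => ?_)
      have h2 := (isHomogeneous_C (Fin (n + 1)) (eval (a q.1) g)).mul (hFhom (c q))
      rwa [zero_add] at h2
    set h := g - ∑ i : s, C (eval (a i.1) g) * F (c i) with hh
    have h3 : h = F fun p => h.coeff (fs p.1) := dec h1
    have h4 : (fun p : M => h.coeff (fs p.1)) = 0 := by
      apply horth
      intro i hi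
      rw [← hFeval, ← h3, hh, map_sub, map_sum]
      rw [Finset.sum_eq_single (⟨i, (hmem i).mpr hi⟩ : s)]
      · have h6 := hev ⟨i, (hmem i).mpr hi⟩ ⟨i, (hmem i).mpr hi⟩
        rw [Pi.single_eq_same] at h6
        have h7 : eval (a i) (F (c ⟨i, (hmem i).mpr hi⟩)) = 1 := h6
        rw [map_mul, eval_C, h7, mul_one, sub_self]
      · intro j _ hj
        have h6 := hev j ⟨i, (hmem i).mpr hi⟩
        rw [Pi.single_eq_of_ne (Ne.symm hj)] at h6
        have h7 : eval (a i) (F (c j)) = 0 := h6
        rw [map_mul, h7, mul_zero]
      · intro hcon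
        exact absurd (Finset.mem_univ _) hcon
    have h5 : h = 0 := by
      rw [h3, h4]
      simp [F]
    exact sub_eq_zero.mp h5

end Pool.Agent.H27.LV
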