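import Pool.Agent.H24.LV.Targets
import Pool.Agent.H58.CLV.KC
import Pool.Agent.H58.CLV.TO

/-!
# Power saving above the square root barrier, row CO (helper8)
-/

set_option autoImplicit false

open Finset MeasureTheory

namespace Pool.Agent.H8.LV

open Pool.Agent.H24.CL Pool.Agent.H24.LV

/-- the binomial identity -/
theorem bin_id (k D E x y i l : ℕ) (hl : l < k) :
    ∑ j ∈ range k, (Nat.choose (j + 1) (i + 1) * x ^ (j - i) * D ^ (i + 1)) *
      (Nat.choose (l + 1) (j + 1) * y ^ (l - j) * E ^ (j + 1)) =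
    Nat.choose (l + 1) (i + 1) * (y + E * x) ^ (l - i) * (D * E) ^ (i + 1) := by
  rcases Nat.lt_or_ge l i with hli | hli
  · rw [Nat.choose_eq_zero_of_lt (by omega : l + 1 < i + 1), zero_mul, zero_mul]
    refine Finset.sum_eq_zero fun j _ => ?_
    rcases Nat.lt_or_ge j i with hj | hj
    · rw [Nat.choose_eq_zero_of_lt (by omega : j + 1 < i + 1)]
      ring
    · rw [Nat.choose_eq_zero_of_lt (by omega : l + 1 < j + 1)]
      ring
  · obtain ⟨s, rfl⟩ := Nat.exists_eq_add_of_le hli
    have h1 : ∑ j ∈ range k, (Nat.choose (j + 1) (i + 1) * x ^ (j - i) * D ^ (i + 1)) *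
        (Nat.choose (i + s + 1) (j + 1) * y ^ (i + s - j) * E ^ (j + 1)) =
        ∑ j ∈ Ico i (i + s + 1), (Nat.choose (j + 1) (i + 1) * x ^ (j - i) * D ^ (i + 1)) *
        (Nat.choose (i + s + 1) (j + 1) * y ^ (i + s - j) * E ^ (j + 1)) := by
      symm
      apply Finset.sum_subset
      · intro j hj
        rw [Finset.mem_Ico] at hj
        rw [Finset.mem_range]
        omega
      · intro j _ hj
        rw [Finset.mem_Ico] at hj
        rcases Nat.lt_or_ge j i with hj' | hj'
        · rw [Nat.choose_eq_zero_of_lt (by omega : j + 1 < i + 1)]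
          ring
        · rw [Nat.choose_eq_zero_of_lt (by omega : i + s + 1 < j + 1)]
          ring
    rw [h1, Finset.sum_Ico_eq_sum_range, show i + s + 1 - i = s + 1 by omega,
      show i + s - i = s by omega, add_comm y (E * x), add_pow, Finset.mul_sum, Finset.sum_mul]
    refine Finset.sum_congr rfl fun t ht => ?_
    rw [Finset.mem_range] at ht
    have h2 := Nat.choose_mul (n := i + s + 1) (k := i + t + 1) (s := i + 1) (by omega)
    rw [show i + s + 1 - (i + 1) = s by omega, show i + t + 1 - (i + 1) = t by omega] at h2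
    rw [show i + t - i = t by omega, show i + s - (i + t) = s - t by omega]
    calc (Nat.choose (i + t + 1) (i + 1) * x ^ t * D ^ (i + 1)) *
          (Nat.choose (i + s + 1) (i + t + 1) * y ^ (s - t) * E ^ (i + t + 1))
        = (Nat.choose (i + s + 1) (i + t + 1) * Nat.choose (i + t + 1) (i + 1)) * (x ^ t *
          D ^ (i + 1) * y ^ (s - t) * E ^ (i + t + 1)) := by ring
      _ = (Nat.choose (i + s + 1) (i + 1) * Nat.choose s t) * (x ^ t *
          D ^ (i + 1) * y ^ (s - t) * E ^ (i + t + 1)) := by rw [h2]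
      _ = _ := by
          rw [mul_pow E x t, mul_pow D E, show i + t + 1 = (i + 1) + t by omega, pow_add E (i + 1) t,
            Nat.cast_id]
          ring

theorem phi_comp {k : ℕ} (D E x y : ℕ) (a : X k) :
    phi D x (phi E y a) = phi (D * E) (y + E * x) a := by
  funext i
  show ∑ j : Fin k, (Nat.choose (j.val + 1) (i.val + 1) * x ^ (j.val - i.val) * D ^ (i.val + 1)) •
      (∑ l : Fin k, (Nat.choose (l.val + 1) (j.val + 1) * y ^ (l.val - j.val) *
        E ^ (j.val + 1)) • a l) =
    ∑ l : Fin k, (Nat.choose (l.val + 1) (i.val + 1) * (y + E * x) ^ (l.val - i.val) *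
      (D * E) ^ (i.val + 1)) • a l
  simp only [Finset.smul_sum, smul_smul]
  rw [Finset.sum_comm]
  refine Finset.sum_congr rfl fun l _ => ?_
  rw [← Finset.sum_smul]
  congr 1
  rw [← bin_id k D E x y i.val l.val l.2]
  exact Fin.sum_univ_eq_sum_range (fun j => (Nat.choose (j + 1) (i.val + 1) * x ^ (j - i.val) *
    D ^ (i.val + 1)) * (Nat.choose (l.val + 1) (j + 1) * y ^ (l.val - j) * E ^ (j + 1))) k

theorem mem_H {k q r : ℕ} {a : X k} : a ∈ H k q r ↔ (q ^ r) • a = 0 := Iff.rfl

theorem phi_H1 {k : ℕ} (D x : ℕ) (a : X k) (ha : a ∈ H k D 1) : phi D x a = 0 := by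
  rw [mem_H, pow_one] at ha
  funext i
  show ∑ j : Fin k, (Nat.choose (j.val + 1) (i.val + 1) * x ^ (j.val - i.val) * D ^ (i.val + 1)) •
      a j = 0
  refine Finset.sum_eq_zero fun j _ => ?_
  have h1 : D • a j = 0 := congrFun ha j
  rw [show Nat.choose (j.val + 1) (i.val + 1) * x ^ (j.val - i.val) * D ^ (i.val + 1) =
    (Nat.choose (j.val + 1) (i.val + 1) * x ^ (j.val - i.val) * D ^ i.val) * D by
      rw [pow_succ]; ring, mul_smul, h1, smul_zero]

theorem cop_zero {A : Type} [AddCommGroup A] {m n : ℕ} (h : Nat.Coprime m n) {a : A}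
    (hm : m • a = 0) (hn : n • a = 0) : a = 0 := by
  have h1 := addOrderOf_dvd_of_nsmul_eq_zero hm
  have h2 := addOrderOf_dvd_of_nsmul_eq_zero hn
  have h3 : addOrderOf a = 1 := Nat.eq_one_of_dvd_coprimes h h1 h2
  exact AddMonoid.addOrderOf_eq_one_iff.1 h3

theorem phi_inj {k : ℕ} (D x r : ℕ) (a : X k) (hD : D.Coprime r) (hr : r • a = 0)
    (ha : phi D x a = 0) : a = 0 := by
  have key : ∀ s : ℕ, ∀ i : Fin k, k - i.val ≤ s → a i = 0 := by
    intro s
    induction s with
    | zero =>
      intro i hi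
      have := i.2
      omega
    | succ s ih =>
      intro i hi
      have h1 : (phi D x a) i = 0 := by rw [ha]; rfl
      have h2 : (phi D x a) i = D ^ (i.val + 1) • a i := by
        show ∑ j : Fin k, (Nat.choose (j.val + 1) (i.val + 1) * x ^ (j.val - i.val) *
          D ^ (i.val + 1)) • a j = _
        rw [Finset.sum_eq_single i]
        · rw [Nat.choose_self, Nat.sub_self, pow_zero, one_mul, one_mul]
        · intro j _ hji
          rcases Nat.lt_or_ge j.val i.val with hj | hj
          · rw [Nat.choose_eq_zero_of_lt (by omega : j.val + 1 < i.val + 1), zero_mul, zero_mul,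
              zero_smul]
          · have hj2 : i.val ≠ j.val := fun h => hji (Fin.ext h.symm)
            rw [ih j (by have := j.2; omega), smul_zero]
        · intro h
          exact absurd (Finset.mem_univ i) h
      rw [h1] at h2
      exact cop_zero (Nat.Coprime.pow_left (i.val + 1) hD) h2.symm (congrFun hr i)
  funext i
  exact key (k - i.val) i le_rfl

theorem H_sup {k D E : ℕ} (h : D.Coprime E) : H k (D * E) k = H k D k ⊔ H k E k := by
  apply le_antisymm
  · intro a ha
    rw [mem_H, mul_pow] at ha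
    have hc : Nat.Coprime (D ^ k) (E ^ k) := Nat.Coprime.pow k k h
    have hb := Nat.gcd_eq_gcd_ab (D ^ k) (E ^ k)
    rw [Nat.Coprime.gcd_eq_one hc] at hb
    set u := Nat.gcdA (D ^ k) (E ^ k) with hu
    set v := Nat.gcdB (D ^ k) (E ^ k) with hv
    have h1 : a = (((E ^ k : ℕ) : ℤ) * v) • a + (((D ^ k : ℕ) : ℤ) * u) • a := by
      rw [← add_smul, add_comm, ← hb, Nat.cast_one, one_smul]
    have ha1 : ((D ^ k * E ^ k : ℕ) : ℤ) • a = 0 := by
      rw [natCast_zsmul]
      exact ha
    rw [h1]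
    refine AddSubgroup.add_mem_sup ?_ ?_
    · rw [mem_H, ← natCast_zsmul, smul_smul]
      have : ((D ^ k : ℕ) : ℤ) * (((E ^ k : ℕ) : ℤ) * v) = v * ((D ^ k * E ^ k : ℕ) : ℤ) := by
        push_cast
        ring
      rw [this, mul_smul, ha1, smul_zero]
    · rw [mem_H, ← natCast_zsmul, smul_smul]
      have : ((E ^ k : ℕ) : ℤ) * (((D ^ k : ℕ) : ℤ) * u) = u * ((D ^ k * E ^ k : ℕ) : ℤ) := by
        push_cast
        ring
      rw [this, mul_smul, ha1, smul_zero]
  · refine sup_le ?_ ?_
    · intro a ha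
      rw [mem_H] at ha ⊢
      rw [mul_pow, mul_comm, mul_smul, ha, smul_zero]
    · intro a ha
      rw [mem_H] at ha ⊢
      rw [mul_pow, mul_smul, ha, smul_zero]

theorem pf_CO : L_CO := by
  have hTO : T_TO := Pool.Agent.H58.CLV.pf_TO
  have hKC : T_KC := Pool.Agent.H58.CLV.pf_KC hTO
  refine ⟨fun k D E x y a => phi_comp D E x y a, fun k D x a ha => phi_H1 D x a ha,
    fun k D x r a h1 h2 h3 => phi_inj D x r a h1 h2 h3, ?_, fun k D E h => H_sup h⟩
  intro k D x hD
  have hmem : ∀ a : X k, a ∈ Kr k D x ↔ phi D x a = 0 := by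
    intro a
    unfold Kr
    rw [Finset.mem_filter]
    refine ⟨fun h => h.2, fun h => ⟨?_, h⟩⟩
    rw [(hTO k D hD).2.1]
    exact (hKC k D x hD).2 h
  refine ⟨?_, hmem⟩
  rw [← (hKC k D x hD).1]
  exact (Nat.subtype_card (Kr k D x) hmem).symm

end Pool.Agent.H8.LV
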