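import Pool.Agent.H24.LV.Targets

/-!
# Power saving above the square root barrier, row PP (helper8): many primes in a short interval
-/

set_option autoImplicit false

open Finset MeasureTheory

namespace Pool.Agent.H8.LV

open Pool.Agent.H24.CL Pool.Agent.H24.LV

/-- many primes -/
theorem many_primes : ∃ P₀ : ℝ, ∀ P : ℝ, P₀ ≤ P → 1 ≤ P ∧ (4 : ℝ) ^ 16 ≤ P ∧
    P ^ (7 / 8 : ℝ) ≤ (Nat.primeCounting ⌊P⌋₊ : ℝ) := by
  have h1 : ∀ᶠ x : ℝ in Filter.atTop, Real.log x ≤ x ^ (1 / 16 : ℝ) := by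
    have h := (isLittleO_log_rpow_atTop (r := 1 / 16) (by norm_num)).bound (c := 1) one_pos
    filter_upwards [h, Filter.eventually_ge_atTop 1] with x hx hx1
    rw [one_mul, Real.norm_of_nonneg (Real.log_nonneg hx1),
      Real.norm_of_nonneg (Real.rpow_nonneg (by linarith) _)] at hx
    exact hx
  obtain ⟨P₁, hP₁⟩ := Filter.eventually_atTop.1 h1
  refine ⟨max P₁ (4 ^ 16), fun P hP => ?_⟩
  have hPb : (4 : ℝ) ^ 16 ≤ P := (le_max_right _ _).trans hP
  have hPa : P₁ ≤ P := (le_max_left _ _).trans hP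
  have hP1 : 1 ≤ P := le_trans (by norm_num) hPb
  have hP0 : 0 < P := by linarith
  refine ⟨hP1, hPb, ?_⟩
  have h2 := Chebyshev.pi_ge' (x := P) (lt_of_lt_of_le (by norm_num) hPb)
  refine le_trans ?_ h2
  have hlog : 0 < Real.log P := Real.log_pos (lt_of_lt_of_le (by norm_num) hPb)
  rw [le_div_iff₀ hlog]
  have h3 := hP₁ P hPa
  have h4 := hP₁ (P + 2) (by linarith)
  have h16 : (4 : ℝ) ≤ P ^ (1 / 16 : ℝ) := by
    calc (4 : ℝ) = ((4 : ℝ) ^ 16) ^ (1 / 16 : ℝ) := by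
          rw [← Real.rpow_natCast, ← Real.rpow_mul (by norm_num)]
          norm_num
      _ ≤ P ^ (1 / 16 : ℝ) := Real.rpow_le_rpow (by norm_num) hPb (by norm_num)
  -- P^(15/16)
  have h5 : P ^ (7 / 8 : ℝ) * Real.log P ≤ P / 4 := by
    calc P ^ (7 / 8 : ℝ) * Real.log P ≤ P ^ (7 / 8 : ℝ) * P ^ (1 / 16 : ℝ) := by gcongr
      _ = P ^ (7 / 8 : ℝ) * P ^ (1 / 16 : ℝ) * 1 := by ring
      _ ≤ P ^ (7 / 8 : ℝ) * P ^ (1 / 16 : ℝ) * (P ^ (1 / 16 : ℝ) / 4) := by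
          apply mul_le_mul_of_nonneg_left _ (by positivity)
          linarith
      _ = P / 4 := by
          rw [mul_div_assoc', ← Real.rpow_add hP0, ← Real.rpow_add hP0]
          norm_num
  have h6 : Real.log (P + 2) ≤ P / 10 + 1 := by
    have h7 : (P + 2) ^ (1 / 16 : ℝ) ≤ P / 10 + 1 := by
      have h8 : (1 : ℝ) + 1 / 16 * (P + 1) ≥ (1 + (P + 1)) ^ (1 / 16 : ℝ) :=
        rpow_one_add_le_one_add_mul_self (by linarith) (by norm_num) (by norm_num)
      have h9 : (1 : ℝ) + (P + 1) = P + 2 := by ring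
      rw [h9] at h8
      nlinarith
    exact h4.trans h7
  have h7 : (0.6931471803 : ℝ) < Real.log 2 := Real.log_two_gt_d9
  have h8 : (4 : ℝ) ^ 16 = 4294967296 := by norm_num
  rw [h8] at hPb
  nlinarith

theorem pf_PP : L_PP := by
  classical
  obtain ⟨P₀, hP₀⟩ := many_primes
  refine ⟨max P₀ (64 ^ 8), fun P hP => ?_⟩
  obtain ⟨hP1, _, hpi⟩ := hP₀ P ((le_max_left _ _).trans hP)
  have hPb : (64 : ℝ) ^ 8 ≤ P := (le_max_right _ _).trans hP
  have hP0 : 0 < P := by linarith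
  set R : ℝ := P ^ (1 / 8 : ℝ) with hR
  have hR64 : 64 ≤ R := by
    calc (64 : ℝ) = ((64 : ℝ) ^ 8) ^ (1 / 8 : ℝ) := by
          rw [← Real.rpow_natCast, ← Real.rpow_mul (by norm_num)]
          norm_num
      _ ≤ R := Real.rpow_le_rpow (by norm_num) hPb (by norm_num)
  have hR0 : 0 < R := by linarith
  have hRn : ∀ n : ℕ, R ^ n = P ^ ((n : ℝ) / 8) := by
    intro n
    rw [hR, ← Real.rpow_natCast, ← Real.rpow_mul hP0.le]
    congr 1
    ring
  have hR8 : R ^ 8 = P := by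
    rw [hRn]
    norm_num
  have hR4 : R ^ 4 = Real.sqrt P := by
    rw [hRn, Real.sqrt_eq_rpow]
    norm_num
  have hR2 : P ^ (1 / 4 : ℝ) = R ^ 2 := by
    rw [hRn]
    norm_num
  have hR7 : P ^ (7 / 8 : ℝ) = R ^ 7 := by
    rw [hRn]
    norm_num
  have hη : P ^ (-(1 / 8 : ℝ)) = R⁻¹ := by
    rw [Real.rpow_neg hP0.le]
  rw [hR2, hη, ← hR4]
  rw [hR7] at hpi
  -- the grid
  set l : ℕ := ⌈R⌉₊ with hl
  have hlR : R ≤ l := Nat.le_ceil R
  have hlR' : (l : ℝ) < R + 1 := Nat.ceil_lt_add_one hR0.le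
  set J : ℕ := l * (4 * l) with hJ
  have hJ1 : 1 ≤ J := by
    have : 1 ≤ l := by
      have : (1 : ℝ) ≤ l := by linarith
      exact_mod_cast this
    rw [hJ]
    nlinarith
  have hgrow : R ^ 4 ≤ (1 + R⁻¹) ^ J := by
    have h1 : 2 ≤ (1 + R⁻¹) ^ l := by
      have h2 := one_add_mul_le_pow (a := R⁻¹) (by
        have : 0 ≤ R⁻¹ := by positivity
        linarith) l
      have h3 : 1 ≤ (l : ℝ) * R⁻¹ := by
        rw [← div_eq_mul_inv, one_le_div hR0]
        exact hlR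
      linarith
    have h2 : R ≤ 2 ^ l := by
      have : l < 2 ^ l := Nat.lt_two_pow_self
      have h3 : (l : ℝ) < 2 ^ l := by exact_mod_cast this
      linarith
    calc R ^ 4 ≤ (2 ^ l) ^ 4 := by gcongr
      _ = 2 ^ (4 * l) := by rw [← pow_mul, mul_comm]
      _ ≤ ((1 + R⁻¹) ^ l) ^ (4 * l) := by gcongr
      _ = (1 + R⁻¹) ^ J := by rw [← pow_mul]
  set T : ℕ → ℝ := fun j => R ^ 4 * (1 + R⁻¹) ^ j with hT
  have hη0 : 0 < R⁻¹ := by positivity
  have hTJ : P ≤ T J := by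
    show P ≤ R ^ 4 * (1 + R⁻¹) ^ J
    calc P = R ^ 4 * R ^ 4 := by rw [← hR8]; ring
      _ ≤ R ^ 4 * (1 + R⁻¹) ^ J := mul_le_mul_of_nonneg_left hgrow (by positivity)
  have hT0 : ∀ j, R ^ 4 ≤ T j := by
    intro j
    have : 1 ≤ (1 + R⁻¹) ^ j := one_le_pow₀ (by linarith)
    rw [hT]
    show R ^ 4 ≤ R ^ 4 * (1 + R⁻¹) ^ j
    nlinarith [pow_pos hR0 4]
  set A : Finset ℕ := (Finset.range (⌊P⌋₊ + 1)).filter fun p => p.Prime ∧ R ^ 4 ≤ (p : ℝ) with hA
  have hAc : R ^ 7 - R ^ 4 - 1 ≤ (A.card : ℝ) := by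
    have h1 : (Finset.range (⌊P⌋₊ + 1)).filter Nat.Prime ⊆ A ∪ Finset.range (⌊R ^ 4⌋₊ + 1) := by
      intro p hp
      rw [Finset.mem_filter] at hp
      rw [Finset.mem_union, hA, Finset.mem_filter]
      by_cases h : R ^ 4 ≤ (p : ℝ)
      · exact Or.inl ⟨hp.1, hp.2, h⟩
      · right
        rw [Finset.mem_range, Nat.lt_succ_iff]
        exact Nat.le_floor (le_of_lt (not_le.1 h))
    have h2 := Finset.card_le_card h1
    have h3 := h2.trans (Finset.card_union_le _ _)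
    rw [Finset.card_range] at h3
    have h4 : Nat.primeCounting ⌊P⌋₊ = ((Finset.range (⌊P⌋₊ + 1)).filter Nat.Prime).card := by
      rw [Nat.primeCounting, Nat.primeCounting', Nat.count_eq_card_filter_range]
    rw [← h4] at h3
    have h5 : (Nat.primeCounting ⌊P⌋₊ : ℝ) ≤ A.card + (⌊R ^ 4⌋₊ + 1) := by exact_mod_cast h3
    have h6 : (⌊R ^ 4⌋₊ : ℝ) ≤ R ^ 4 := Nat.floor_le (by positivity)
    linarith
  have hex : ∀ p ∈ A, ∃ j, j < J ∧ T j ≤ (p : ℝ) ∧ (p : ℝ) ≤ T (j + 1) := by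
    intro p hp
    rw [hA, Finset.mem_filter, Finset.mem_range] at hp
    obtain ⟨hp1, -, hp3⟩ := hp
    have hpP : (p : ℝ) ≤ P := by
      have h1 : p ≤ ⌊P⌋₊ := by omega
      have h2 : (p : ℝ) ≤ ⌊P⌋₊ := by exact_mod_cast h1
      exact h2.trans (Nat.floor_le hP0.le)
    have hfind : ∃ j, (p : ℝ) ≤ T (j + 1) := ⟨J - 1, by
      rw [Nat.sub_add_cancel hJ1]
      exact hpP.trans hTJ⟩
    refine ⟨Nat.find hfind, ?_, ?_, Nat.find_spec hfind⟩
    · have h1 : Nat.find hfind ≤ J - 1 := Nat.find_min' hfind (by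
        rw [Nat.sub_add_cancel hJ1]
        exact hpP.trans hTJ)
      omega
    · rcases Nat.eq_zero_or_pos (Nat.find hfind) with h0 | h0
      · rw [h0]
        show R ^ 4 * (1 + R⁻¹) ^ 0 ≤ (p : ℝ)
        rw [pow_zero, mul_one]
        exact hp3
      · have h1 := Nat.find_min hfind (m := Nat.find hfind - 1) (by omega)
        rw [Nat.sub_add_cancel h0] at h1
        exact le_of_lt (not_le.1 h1)
  choose! g hg using hex
  have hpig := Finset.exists_le_card_fiber_of_nsmul_le_card_of_maps_to (s := A)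
    (t := Finset.range J) (f := g) (b := R ^ 2)
    (fun p hp => Finset.mem_range.2 (hg p hp).1) ⟨0, Finset.mem_range.2 hJ1⟩ (by
      rw [Finset.card_range, nsmul_eq_mul]
      refine le_trans ?_ hAc
      have h1 : (J : ℝ) ≤ 4 * (R + 1) ^ 2 := by
        rw [hJ]
        push_cast
        have h2 : (l : ℝ) ≤ R + 1 := hlR'.le
        have h3 : (0 : ℝ) ≤ l := Nat.cast_nonneg _
        nlinarith
      have h2 : (J : ℝ) * R ^ 2 ≤ 4 * (R + 1) ^ 2 * R ^ 2 := by gcongr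
      refine h2.trans ?_
      have h3 : (R + 1) ^ 2 ≤ 4 * R ^ 2 := by nlinarith
      have h4 : 4 * (R + 1) ^ 2 * R ^ 2 ≤ 16 * R ^ 4 := by nlinarith [sq_nonneg R]
      have h5 : 18 * R ^ 4 ≤ R ^ 7 := by
        have h6 : (64 : ℝ) ^ 3 ≤ R ^ 3 := by gcongr
        have h7 : R ^ 7 = R ^ 4 * R ^ 3 := by ring
        have h8 : 0 < R ^ 4 := by positivity
        rw [h7]
        nlinarith
      have h6 : 1 ≤ R ^ 4 := one_le_pow₀ (by linarith)
      linarith)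
  obtain ⟨j, hj, hjc⟩ := hpig
  refine ⟨T j, A.filter fun p => g p = j, hT0 j, ?_, ?_, hjc⟩
  · have hne : (A.filter fun p => g p = j).Nonempty := by
      rw [← Finset.card_pos]
      have h1 : (0 : ℝ) < ((A.filter fun p => g p = j).card : ℝ) :=
        lt_of_lt_of_le (by positivity) hjc
      exact_mod_cast h1
    obtain ⟨p, hp⟩ := hne
    rw [Finset.mem_filter] at hp
    obtain ⟨hpA, hpj⟩ := hp
    have h1 := (hg p hpA).2.1
    rw [hpj] at h1
    refine h1.trans ?_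
    rw [hA, Finset.mem_filter, Finset.mem_range] at hpA
    have h2 : p ≤ ⌊P⌋₊ := by omega
    have h3 : (p : ℝ) ≤ ⌊P⌋₊ := by exact_mod_cast h2
    exact h3.trans (Nat.floor_le hP0.le)
  · intro p hp
    rw [Finset.mem_filter] at hp
    obtain ⟨hpA, hpj⟩ := hp
    obtain ⟨-, h1, h2⟩ := hg p hpA
    rw [hpj] at h1 h2
    rw [hA, Finset.mem_filter] at hpA
    refine ⟨hpA.2.1, h1, h2.trans (le_of_eq ?_)⟩
    show R ^ 4 * (1 + R⁻¹) ^ (j + 1) = R ^ 4 * (1 + R⁻¹) ^ j * (1 + R⁻¹)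
    rw [pow_succ]
    ring

end Pool.Agent.H8.LV
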