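import Pool.Agent.H24.LV.Targets

/-!
# Power saving above the square root barrier, row CT (helper8)
-/

set_option autoImplicit false

open Finset MeasureTheory

namespace Pool.Agent.H8.LV

open Pool.Agent.H24.CL Pool.Agent.H24.LV

theorem pf_CT (hCO : L_CO) : L_CT := by
  classical
  intro k D E z hD hE hDE hz
  obtain ⟨h1, h2, h3, h4, h5⟩ := hCO
  have hmD : ∀ x a, a ∈ Kr k D x ↔ phi D x a = 0 := fun x => (h4 k D x hD).2
  have hmE : ∀ x a, a ∈ Kr k E x ↔ phi E x a = 0 := fun x => (h4 k E x hE).2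
  have hDE1 : 1 ≤ D * E := Nat.mul_pos hD hE
  have hmDE : ∀ x a, a ∈ Kr k (D * E) x ↔ phi (D * E) x a = 0 := fun x => (h4 k (D * E) x hDE1).2
  have hA : ∀ κ ∈ Kr k (D * E) z, phi E (z % E) κ ∈ Kr k D (z / E) ∧
      phi D (z % D) κ ∈ Kr k E (z / D) := by
    intro κ hκ
    rw [hmDE] at hκ
    refine ⟨?_, ?_⟩
    · rw [hmD, h1, Nat.mod_add_div]
      exact hκ
    · rw [hmE, h1, Nat.mod_add_div, mul_comm E D]
      exact hκ
  refine ⟨hA, ?_⟩
  -- injectivity
  have hinj : ∀ κ κ' : X k, κ ∈ Kr k (D * E) z → κ' ∈ Kr k (D * E) z →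
      phi E (z % E) κ = phi E (z % E) κ' → phi D (z % D) κ = phi D (z % D) κ' → κ = κ' := by
    intro κ κ' hκ hκ' e1 e2
    have hd : κ - κ' ∈ H k (D * E) k := by
      have hH : ∀ a ∈ Kr k (D * E) z, a ∈ H k (D * E) k := by
        intro a ha
        unfold Kr at ha
        rw [Finset.mem_filter] at ha
        obtain ⟨h6, h7⟩ := ha
        unfold HF at h6
        rw [Finset.mem_image] at h6
        obtain ⟨n, -, rfl⟩ := h6
        show ((D * E) ^ k) • (tor (D * E) k fun i => (n i : ℤ)) = 0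
        funext i
        show ((D * E) ^ k) • (((((n i : ℤ) : ℝ) / ((D * E : ℕ) : ℝ) ^ k : ℝ)) : UnitAddCircle) = 0
        rw [← AddCircle.coe_nsmul, AddCircle.coe_eq_zero_iff]
        refine ⟨(n i : ℤ), ?_⟩
        rw [zsmul_eq_mul, mul_one, nsmul_eq_mul]
        have h8 : (((D * E : ℕ) : ℝ)) ≠ 0 := by
          have : D * E ≠ 0 := by omega
          exact_mod_cast this
        push_cast at h8 ⊢
        field_simp
      exact (H k (D * E) k).sub_mem (hH κ hκ) (hH κ' hκ')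
    rw [h5 k D E hDE, AddSubgroup.mem_sup] at hd
    obtain ⟨a, ha, b, hb, hab⟩ := hd
    have ha' : (D ^ k) • a = 0 := ha
    have hb' : (E ^ k) • b = 0 := hb
    have e3 : phi E (z % E) (a + b) = 0 := by rw [hab, map_sub, e1, sub_self]
    have e4 : phi D (z % D) (a + b) = 0 := by rw [hab, map_sub, e2, sub_self]
    have hcop : Nat.Coprime (D ^ k) (E ^ k) := Nat.Coprime.pow k k hDE
    have cz : ∀ c : X k, (D ^ k) • c = 0 → (E ^ k) • c = 0 → c = 0 := by
      intro c c1 c2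
      have d1 := addOrderOf_dvd_of_nsmul_eq_zero c1
      have d2 := addOrderOf_dvd_of_nsmul_eq_zero c2
      exact AddMonoid.addOrderOf_eq_one_iff.1 (Nat.eq_one_of_dvd_coprimes hcop d1 d2)
    have e5 : phi E (z % E) a = 0 := by
      apply cz
      · rw [← map_nsmul, ha', map_zero]
      · rw [map_add] at e3
        rw [eq_neg_of_add_eq_zero_left e3, smul_neg, ← map_nsmul, hb', map_zero, neg_zero]
    have e6 : phi D (z % D) b = 0 := by
      apply cz
      · rw [map_add] at e4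
        rw [eq_neg_of_add_eq_zero_right e4, smul_neg, ← map_nsmul, ha', map_zero, neg_zero]
      · rw [← map_nsmul, hb', map_zero]
    have e7 : a = 0 := h3 k E (z % E) (D ^ k) a (Nat.Coprime.pow_right k hDE.symm) ha' e5
    have e8 : b = 0 := h3 k D (z % D) (E ^ k) b (Nat.Coprime.pow_right k hDE) hb' e6
    rw [e7, e8, add_zero] at hab
    exact sub_eq_zero.1 hab.symm
  -- counting
  have hsurj : (Kr k (D * E) z).image (fun κ => (phi E (z % E) κ, phi D (z % D) κ)) =
      Kr k D (z / E) ×ˢ Kr k E (z / D) := by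
    apply Finset.eq_of_subset_of_card_le
    · intro p hp
      rw [Finset.mem_image] at hp
      obtain ⟨κ, hκ, rfl⟩ := hp
      rw [Finset.mem_product]
      exact hA κ hκ
    · rw [Finset.card_product, Finset.card_image_of_injOn, (h4 k (D * E) z hDE1).1,
        (h4 k D (z / E) hD).1, (h4 k E (z / D) hE).1, mul_pow]
      intro κ hκ κ' hκ' h
      simp only [Prod.mk.injEq] at h
      exact hinj κ κ' hκ hκ' h.1 h.2
  intro κ₁ hκ₁ κ₂ hκ₂
  have hm : (κ₁, κ₂) ∈ Kr k D (z / E) ×ˢ Kr k E (z / D) := Finset.mem_product.2 ⟨hκ₁, hκ₂⟩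
  rw [← hsurj, Finset.mem_image] at hm
  obtain ⟨κ, hκ, he⟩ := hm
  simp only [Prod.mk.injEq] at he
  refine ⟨κ, ⟨hκ, he.1, he.2⟩, ?_⟩
  rintro κ' ⟨hκ', he1, he2⟩
  exact hinj κ' κ hκ' hκ (he1.trans he.1.symm) (he2.trans he.2.symm)

end Pool.Agent.H8.LV
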